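import Pool.Agent.MP_826def_gt.BM.Spec

/-!
Homotopy extension for cocycles.
-/

namespace Pool.Agent.MP_826def_gt.BM

open Set Topology MU

noncomputable section

namespace XHep

theorem ce_left {X Y : Type} [TopologicalSpace X] [TopologicalSpace Y] [T1Space Y] (y : Y) :
    IsClosedEmbedding fun x : X => (x, y) := by
  refine ⟨isEmbedding_prodMkLeft y, ?_⟩
  have : range (fun x : X => (x, y)) = Prod.snd ⁻¹' {y} := by
    ext ⟨a, b⟩
    simp [eq_comm]
  rw [this]
  exact isClosed_singleton.preimage continuous_snd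

/-- Extension from a closed part of a compact set. -/
theorem ext_cpt {Y E : Type} [TopologicalSpace Y] [T2Space Y] [TopologicalSpace E] [Zero E]
    [TietzeExtension.{0, 0} E] {K S : Set Y} (hK : IsCompact K) (hS : IsClosed S) {f : Y → E}
    (hf : ContinuousOn f (K ∩ S)) : ∃ F : Y → E, ContinuousOn F K ∧ EqOn F f (K ∩ S) := by
  have : CompactSpace K := isCompact_iff_compactSpace.1 hK
  have h1 : IsClosed (Subtype.val ⁻¹' S : Set K) := hS.preimage continuous_subtype_val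
  obtain ⟨g, hg⟩ := ContinuousMap.exists_restrict_eq h1
    (⟨fun x : (Subtype.val ⁻¹' S : Set K) => f x.1.1, hf.comp_continuous
      (continuous_subtype_val.comp continuous_subtype_val) fun x => ⟨x.1.2, x.2⟩⟩ : C(_, E))
  refine ⟨Function.extend Subtype.val g 0, ?_, fun x hx => ?_⟩
  · rw [continuousOn_iff_continuous_restrict]
    convert g.continuous using 1
    funext x
    exact Subtype.val_injective.extend_apply _ _ x
  · have := Subtype.val_injective.extend_apply g (0 : Y → E) ⟨x, hx.1⟩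
    exact this.trans (congrArg (fun φ : C(_, E) => φ ⟨⟨x, hx.1⟩, hx.2⟩) hg)

/-- Gluing along two closed embeddings and extension to a neighbourhood. -/
theorem glue {Y A B E : Type} [TopologicalSpace Y] [T2Space Y] [LocallyCompactSpace Y]
    [TopologicalSpace A] [TopologicalSpace B] [TopologicalSpace E] [Zero E]
    [TietzeExtension.{0, 0} E] {α : A → Y} {β : B → Y} (hα : IsClosedEmbedding α)
    (hβ : IsClosedEmbedding β) {f : A → E} {g : B → E} {K U : Set Y} (hK : IsCompact K)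
    (hU : IsOpen U) (hKU : K ⊆ U) (hf : ContinuousOn f (α ⁻¹' U)) (hg : ContinuousOn g (β ⁻¹' U))
    (hfg : ∀ a b, α a = β b → α a ∈ U → f a = g b) :
    ∃ (W : Set Y) (F : Y → E), IsOpen W ∧ K ⊆ W ∧ W ⊆ U ∧ ContinuousOn F W ∧
      (∀ a, α a ∈ W → F (α a) = f a) ∧ ∀ b, β b ∈ W → F (β b) = g b := by
  obtain ⟨L, hL, h1, h2⟩ := exists_compact_between hK hU hKU
  set φ : Y → E := Function.extend α f (Function.extend β g 0) with hφ
  have a1 : ∀ a, φ (α a) = f a := fun a => hα.injective.extend_apply _ _ a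
  have a2 : ∀ b, β b ∈ U → φ (β b) = g b := fun b hb => by
    by_cases h : ∃ a, α a = β b
    · obtain ⟨a, ha⟩ := h
      rw [← ha, a1]
      exact hfg a b ha (ha ▸ hb)
    · rw [hφ, Function.extend_apply' _ _ _ h]
      exact hβ.injective.extend_apply _ _ b
  have c1 : ContinuousOn φ (L ∩ range α) := by
    rw [← image_preimage_eq_inter_range, hα.isInducing.continuousOn_image_iff]
    exact (hf.mono (preimage_mono h2)).congr fun a _ => a1 a
  have c2 : ContinuousOn φ (L ∩ range β) := by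
    rw [← image_preimage_eq_inter_range, hβ.isInducing.continuousOn_image_iff]
    exact (hg.mono (preimage_mono h2)).congr fun b hb => a2 b (h2 hb)
  have c3 := c1.union_of_isClosed c2 (hL.isClosed.inter hα.isClosed_range)
    (hL.isClosed.inter hβ.isClosed_range)
  rw [← inter_union_distrib_left] at c3
  obtain ⟨F, hF, hF'⟩ := ext_cpt hL (hα.isClosed_range.union hβ.isClosed_range) c3
  refine ⟨interior L, F, isOpen_interior, h1, interior_subset.trans h2, hF.mono interior_subset,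
    fun a ha => ?_, fun b hb => ?_⟩
  · rw [hF' ⟨interior_subset ha, Or.inl ⟨a, rfl⟩⟩, a1]
  · rw [hF' ⟨interior_subset hb, Or.inr ⟨b, rfl⟩⟩, a2 b (h2 (interior_subset hb))]

end XHep

open XHep in
theorem hep0 (g1 : S_good1) (hR : S_Retr) : S_Hep0 := by
  intro N M _ _ _ _ i V W O p s Q q t hi hc hC hG
  obtain ⟨G, oG, GO, GQ, Gp, Gs, z1, z2⟩ := hG
  obtain ⟨D, R, oD, cR, iR, fR⟩ := hR W
  have : TietzeExtension.{0, 0} ((W →L[ℂ] W) × W) := TietzeExtension.of_tvs ℂ
  let α : N × V → (N × unitInterval) × V := Prod.map (fun x => (x, 0)) id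
  let β : (M × unitInterval) × V → (N × unitInterval) × V := Prod.map (Prod.map i id) id
  let γ : M × V → (N × unitInterval) × V := α ∘ Prod.map i id
  have hα : IsClosedEmbedding α := (ce_left 0).prodMap IsClosedEmbedding.id
  have hβ : IsClosedEmbedding β := (hi.prodMap IsClosedEmbedding.id).prodMap IsClosedEmbedding.id
  have hγ : IsClosedEmbedding γ := hα.comp (hi.prodMap IsClosedEmbedding.id)
  have eab : ∀ a b, α a = β b → a = (i b.1.1, b.2) ∧ b = ((b.1.1, 0), b.2) := by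
    rintro ⟨n, v⟩ ⟨⟨m, τ⟩, w⟩ h
    simp only [α, β, Prod.map, id, Prod.mk.injEq] at h
    obtain ⟨⟨rfl, rfl⟩, rfl⟩ := h
    exact ⟨rfl, rfl⟩
  let K : Set ((N × unitInterval) × V) := α '' {z | z ∈ O ∧ s z = 0} ∪ β '' {z | z ∈ Q ∧ t z = 0}
  have hK : IsCompact K := (hc.cpt.image hα.continuous).union (hC.cpt.image hβ.continuous)
  let U : Set ((N × unitInterval) × V) := (α '' Oᶜ ∪ β '' Qᶜ ∪ γ '' Gᶜ)ᶜ
  have hU : IsOpen U := (((hα.isClosedMap _ hc.op.isClosed_compl).union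
    (hβ.isClosedMap _ hC.op.isClosed_compl)).union (hγ.isClosedMap _ oG.isClosed_compl)).isOpen_compl
  have UO : ∀ a, α a ∈ U → a ∈ O := fun a h => by
    by_contra h'
    exact h (Or.inl (Or.inl ⟨a, h', rfl⟩))
  have UQ : ∀ b, β b ∈ U → b ∈ Q := fun b h => by
    by_contra h'
    exact h (Or.inl (Or.inr ⟨b, h', rfl⟩))
  have UG : ∀ m, γ m ∈ U → m ∈ G := fun m h => by
    by_contra h'
    exact h (Or.inr ⟨m, h', rfl⟩)
  have hKU : K ⊆ U := by
    rintro _ (⟨a, ha, rfl⟩ | ⟨b, hb, rfl⟩) ((⟨a', h1, h2⟩ | ⟨b', h1, h2⟩) | ⟨m, h1, h2⟩)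
    · exact h1 (hα.injective h2 ▸ ha.1)
    · obtain ⟨e1, e2⟩ := eab _ _ h2.symm
      rw [e1] at ha
      exact h1 (e2 ▸ GQ (z1 (b'.1.1, b'.2) ha.1 ha.2))
    · rw [← hα.injective (a₁ := (i m.1, m.2)) h2] at ha
      exact h1 (z1 m ha.1 ha.2)
    · obtain ⟨e1, e2⟩ := eab _ _ h2
      rw [e2] at hb
      exact h1 (e1 ▸ GO (z2 (b.1.1, b.2) hb.1 hb.2))
    · exact h1 (hβ.injective h2 ▸ hb.1)
    · have e : b = ((m.1, 0), m.2) := (hβ.injective (a₁ := ((m.1, 0), m.2)) h2).symm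
      rw [e] at hb
      exact h1 (z2 m hb.1 hb.2)
  obtain ⟨W₀, F, o0, k0, u0, cF, Fa, Fb⟩ := glue (f := fun z => (p z, s z))
    (g := fun z => (q z, t z)) hα hβ hK hU hKU ((hc.cp.prodMk hc.cs).mono UO)
    ((hC.cp.prodMk hC.cs).mono UQ) (fun a b h ha => by
      obtain ⟨e1, e2⟩ := eab _ _ h
      have hm : (b.1.1, b.2) ∈ G := UG _ (by rw [e1] at ha; exact ha)
      rw [e1, e2]
      exact Prod.ext (Gp hm) (Gs hm))
  have ca : ContinuousOn (fun y => (F y).1) W₀ := continuous_fst.comp_continuousOn cF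
  have cσ : ContinuousOn (fun y => (F y).2) W₀ := continuous_snd.comp_continuousOn cF
  let e : (N × unitInterval) × V → W →L[ℂ] W := fun y => R (F y).1
  let σ : (N × unitInterval) × V → W := fun y => e y (F y).2
  have Ea : ∀ a, α a ∈ W₀ → (F (α a)).1 ∈ D ∧ e (α a) = p a ∧ σ (α a) = s a := fun a ha => by
    have h1 := fR _ (hc.idem a (UO a (u0 ha)))
    have h2 : e (α a) = p a := by
      simp only [e, Fa a ha]
      exact h1.2
    refine ⟨by rw [Fa a ha]; exact h1.1, h2, ?_⟩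
    simp only [σ, h2, Fa a ha]
    exact hc.sec a (UO a (u0 ha))
  have Eb : ∀ b, β b ∈ W₀ → (F (β b)).1 ∈ D ∧ e (β b) = q b ∧ σ (β b) = t b := fun b hb => by
    have h1 := fR _ (hC.idem b (UQ b (u0 hb)))
    have h2 : e (β b) = q b := by
      simp only [e, Fb b hb]
      exact h1.2
    refine ⟨by rw [Fb b hb]; exact h1.1, h2, ?_⟩
    simp only [σ, h2, Fb b hb]
    exact hC.sec b (UQ b (u0 hb))
  have o1 : IsOpen (W₀ ∩ (fun y => (F y).1) ⁻¹' D) := ca.isOpen_inter_preimage o0 oD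
  have k1 : K ⊆ W₀ ∩ (fun y => (F y).1) ⁻¹' D := fun y hy => ⟨k0 hy, by
    have hy' := k0 hy
    obtain ⟨a, -, rfl⟩ | ⟨b, -, rfl⟩ := hy
    · exact (Ea a hy').1
    · exact (Eb b hy').1⟩
  obtain ⟨L, hL, l1, l2⟩ := exists_compact_between hK o1 k1
  have ce : ContinuousOn e L := cR.comp (ca.mono fun y hy => (l2 hy).1) fun y hy => (l2 hy).2
  have cs : ContinuousOn σ L := ce.clm_apply (cσ.mono fun y hy => (l2 hy).1)
  have hZ : IsCompact (L ∩ σ ⁻¹' {0}) := hL.of_isClosed_subset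
    (cs.preimage_isClosed_of_isClosed hL.isClosed isClosed_singleton) inter_subset_left
  have Za : ∀ a, α a ∈ L ∩ σ ⁻¹' {0} → α a ∈ interior L := fun a ha =>
    l1 (Or.inl ⟨a, ⟨UO a (u0 (l2 ha.1).1), (Ea a (l2 ha.1).1).2.2.symm.trans ha.2⟩, rfl⟩)
  have Zb : ∀ b, β b ∈ L ∩ σ ⁻¹' {0} → β b ∈ interior L := fun b hb =>
    l1 (Or.inr ⟨b, ⟨UQ b (u0 (l2 hb.1).1), (Eb b (l2 hb.1).1).2.2.symm.trans hb.2⟩, rfl⟩)
  obtain ⟨φ, φ0, φ1, φI⟩ := exists_continuous_zero_one_of_isCompact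
    ((hZ.diff isOpen_interior).image (continuous_fst.comp continuous_fst)) hi.isClosed_range (by
      rw [disjoint_left]
      rintro _ ⟨⟨⟨n, τ⟩, v⟩, hy, rfl⟩ ⟨m, rfl : i m = n⟩
      exact hy.2 (Zb ((m, τ), v) hy.1))
  let ψ : N → unitInterval := fun n => ⟨φ n, φI n⟩
  have cψ : Continuous ψ := φ.continuous.subtype_mk _
  let r : (N × unitInterval) × V → (N × unitInterval) × V :=
    fun y => ((y.1.1, ψ y.1.1 * y.1.2), y.2)
  have cr : Continuous r := by
    refine Continuous.prodMk (Continuous.prodMk (by fun_prop) ?_) continuous_snd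
    exact Continuous.subtype_mk ((continuous_subtype_val.comp (cψ.comp (by fun_prop))).mul
      (continuous_subtype_val.comp (by fun_prop))) _
  have r0 : ∀ a : N × V, r ((a.1, 0), a.2) = α a := fun a => by
    simp only [r, α, mul_zero, Prod.map, id]
  have r1 : ∀ m : M × V, r ((i m.1, 1), m.2) = β ((m.1, 1), m.2) := fun m => by
    have : ψ (i m.1) = 1 := Subtype.ext (φ1 ⟨m.1, rfl⟩)
    simp only [r, β, this, mul_one, Prod.map, id]
  let C : Raw (N × unitInterval) := ⟨V, W, r ⁻¹' interior L, e ∘ r, σ ∘ r⟩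
  have gC : C.Good := by
    refine ⟨isOpen_interior.preimage cr, ce.comp cr.continuousOn fun y hy => interior_subset hy,
      cs.comp cr.continuousOn fun y hy => interior_subset hy,
      fun y hy => iR _ (l2 (interior_subset hy)).2, fun y hy => ?_, ?_⟩
    · exact congrArg (fun A : W →L[ℂ] W => A (F (r y)).2) (iR _ (l2 (interior_subset hy)).2)
    · have h1 : C.Z = r ⁻¹' (L ∩ σ ⁻¹' {0}) := by
        refine Subset.antisymm (fun y hy => ⟨interior_subset hy.1, hy.2⟩) fun y hy => ⟨?_, hy.2⟩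
        by_contra h
        have h2 : ψ y.1.1 = 0 := Subtype.ext (φ0 ⟨r y, ⟨hy, h⟩, rfl⟩)
        have h3 : r y = α (y.1.1, y.2) := by simp only [r, α, h2, zero_mul, Prod.map, id]
        exact h (show r y ∈ interior L from h3 ▸ Za _ (h3 ▸ hy))
      rw [h1]
      refine ((hZ.prod isCompact_univ).image (f := fun w : ((N × unitInterval) × V) ×
        unitInterval => ((w.1.1.1, w.2), w.1.2)) (by fun_prop)).of_isClosed_subset
        (hZ.isClosed.preimage cr) fun y hy => ⟨(r y, y.1.2), ⟨hy, trivial⟩, rfl⟩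
  have g0 := g1.pull gC (ce_left (X := N) (0 : unitInterval)).isProperMap
  have g1' := g1.pull gC (ce_left (X := N) (1 : unitInterval)).isProperMap
  have w0 : ∀ y, y ∈ interior L → y ∈ W₀ := fun y hy => (l2 (interior_subset hy)).1
  refine ⟨_, _, _, g1', (cls_move g0 g1' (Move.htpy C gC)).symm.trans (cls_move hc g0 ?_).symm,
    (β ∘ fun z : M × V => ((z.1, 1), z.2)) ⁻¹' interior L, isOpen_interior.preimage
      (hβ.continuous.comp (by fun_prop)), fun z hz => ?_, fun z hz => UQ _ (u0 (w0 _ hz)),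
    fun z hz => ?_, fun z hz => ?_, fun z hz _ => ?_, fun z hz h => l1 (Or.inr ⟨_, ⟨hz, h⟩, rfl⟩)⟩
  · refine Move.germ ⟨V, W, O, p, s⟩ _ _ _ (fun a ha => ?_) (fun a ha => ?_) (fun a ha => ?_)
      fun a ha => ?_
    · exact UO a (u0 (w0 _ (r0 a ▸ ha)))
    · exact (congrArg e (r0 a)).trans (Ea a (w0 _ (r0 a ▸ ha))).2.1
    · exact (congrArg σ (r0 a)).trans (Ea a (w0 _ (r0 a ▸ ha))).2.2
    · exact show r ((a.1, 0), a.2) ∈ interior L from (r0 a).symm ▸ l1 (Or.inl ⟨a, ha, rfl⟩)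
  · exact show r ((i z.1, 1), z.2) ∈ interior L from (r1 z).symm ▸ hz
  · exact (congrArg e (r1 z)).trans (Eb ((z.1, 1), z.2) (w0 _ hz)).2.1
  · exact (congrArg σ (r1 z)).trans (Eb ((z.1, 1), z.2) (w0 _ hz)).2.2
  · exact show β ((z.1, 1), z.2) ∈ interior L from r1 z ▸ hz

end

end Pool.Agent.MP_826def_gt.BM
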