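import Pool.Agent.MP_826def_gt.BM.Spec

/-!
Calculus of isomorphic germs, first part.
-/

namespace Pool.Agent.MP_826def_gt.BM

open Set Topology MU

namespace XIG1

theorem symm {X : Type} [TopologicalSpace X] {c c' : Raw X} (hc : c.Good) (h : IG c c') :
    IG c' c := by
  obtain ⟨e, G, u, v, hG, h1, h2, hu, hv, H⟩ := h
  have hφ : Continuous fun z : X × c.V => ((z.1, e.symm z.2) : X × c'.V) := by fun_prop
  refine ⟨e.symm, (fun z : X × c.V => ((z.1, e.symm z.2) : X × c'.V)) ⁻¹' G,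
    fun z => v (z.1, e.symm z.2), fun z => u (z.1, e.symm z.2), hG.preimage hφ, ?_, ?_,
    hv.comp hφ.continuousOn fun _ hz => hz, hu.comp hφ.continuousOn fun _ hz => hz, ?_⟩
  · intro z hz
    refine h2 (z.1, e.symm z.2) ?_
    simpa only [ContinuousLinearEquiv.apply_symm_apply] using hz
  · intro z hz
    exact h1 hz
  · intro z hz
    obtain ⟨a1, a2, a3, a4, a5⟩ := H _ hz
    simp only [ContinuousLinearEquiv.apply_symm_apply, Prod.mk.eta] at a2 a3 a5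
    refine ⟨a2, a1, a4, a3, ?_⟩
    rw [← a5, ← ContinuousLinearMap.comp_apply, a3]
    exact hc.sec z a2

theorem trans {X : Type} [TopologicalSpace X] {c c' c'' : Raw X} (hc : c.Good) (hc' : c'.Good)
    (hc'' : c''.Good) (h : IG c c') (h' : IG c' c'') : IG c c'' := by
  obtain ⟨e₁, G₁, u₁, v₁, hG₁, h1, h2, hu₁, hv₁, H₁⟩ := h
  obtain ⟨e₂, G₂, u₂, v₂, hG₂, k1, k2, hu₂, hv₂, H₂⟩ := h'
  have hφ : Continuous fun z : X × c''.V => ((z.1, e₂ z.2) : X × c'.V) := by fun_prop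
  refine ⟨e₂.trans e₁, G₂ ∩ (fun z : X × c''.V => ((z.1, e₂ z.2) : X × c'.V)) ⁻¹' G₁,
    fun z => u₂ z ∘L u₁ (z.1, e₂ z.2), fun z => v₁ (z.1, e₂ z.2) ∘L v₂ z,
    hG₂.inter (hG₁.preimage hφ), ?_, ?_,
    (hu₂.mono inter_subset_left).clm_comp (hu₁.comp hφ.continuousOn fun _ hz => hz.2),
    (hv₁.comp hφ.continuousOn fun _ hz => hz.2).clm_comp (hv₂.mono inter_subset_left), ?_⟩
  · intro z hz
    obtain ⟨-, a2, a3, -, a5⟩ := H₂ z (k1 hz)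
    refine ⟨k1 hz, h1 ⟨a2, ?_⟩⟩
    rw [← hc'.sec _ a2, ← a3, ContinuousLinearMap.comp_apply, a5, hz.2, map_zero]
  · intro z hz
    have hw : ((z.1, e₂ z.2) : X × c'.V) ∈ G₁ := h2 (z.1, e₂ z.2) hz
    obtain ⟨a1, -, -, -, a5⟩ := H₁ _ hw
    refine ⟨k2 z ⟨a1, ?_⟩, hw⟩
    have h0 : c.s (z.1, e₁ (e₂ z.2)) = 0 := hz.2
    rw [← a5]
    show u₁ _ (c.s (z.1, e₁ (e₂ z.2))) = 0
    rw [h0, map_zero]
  · intro z hz
    obtain ⟨-, a2, a3, a4, a5⟩ := H₁ _ hz.2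
    obtain ⟨b1, -, b3, b4, b5⟩ := H₂ z hz.1
    refine ⟨b1, a2, ?_, ?_, ?_⟩
    · calc (v₁ (z.1, e₂ z.2) ∘L v₂ z) ∘L u₂ z ∘L u₁ (z.1, e₂ z.2)
          = v₁ (z.1, e₂ z.2) ∘L (v₂ z ∘L u₂ z) ∘L u₁ (z.1, e₂ z.2) := rfl
        _ = (v₁ (z.1, e₂ z.2) ∘L u₁ (z.1, e₂ z.2)) ∘L v₁ (z.1, e₂ z.2) ∘L u₁ (z.1, e₂ z.2) := by
          rw [b3, ← a4]; rfl
        _ = c.p (z.1, e₁ (e₂ z.2)) := by
          rw [a3]; exact hc.idem _ a2
    · calc (u₂ z ∘L u₁ (z.1, e₂ z.2)) ∘L v₁ (z.1, e₂ z.2) ∘L v₂ z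
          = u₂ z ∘L (u₁ (z.1, e₂ z.2) ∘L v₁ (z.1, e₂ z.2)) ∘L v₂ z := rfl
        _ = (u₂ z ∘L v₂ z) ∘L u₂ z ∘L v₂ z := by
          rw [a4, ← b3]; rfl
        _ = c''.p z := by
          rw [b4]; exact hc''.idem _ b1
    · rw [← b5, ← a5]
      rfl

theorem pull {X X' : Type} [TopologicalSpace X] [TopologicalSpace X'] {c c' : Raw X} {f : X' → X}
    (hf : Continuous f) (h : IG c c') : IG (c.pull f) (c'.pull f) := by
  obtain ⟨e, G, u, v, hG, h1, h2, hu, hv, H⟩ := h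
  have hφ : Continuous fun z : X' × c'.V => ((f z.1, z.2) : X × c'.V) := by fun_prop
  exact ⟨e, (fun z : X' × c'.V => ((f z.1, z.2) : X × c'.V)) ⁻¹' G,
    fun z => u (f z.1, z.2), fun z => v (f z.1, z.2), hG.preimage hφ, fun _ hz => h1 hz,
    fun z hz => h2 (f z.1, z.2) hz, hu.comp hφ.continuousOn fun _ hz => hz,
    hv.comp hφ.continuousOn fun _ hz => hz, fun z hz => H (f z.1, z.2) hz⟩

theorem zero {X : Type} [TopologicalSpace X] {c c' : Raw X} (h : IG c c') (z : X × c.V)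
    (hz : z ∈ c.Z) : ∃ z' ∈ c'.Z, z'.1 = z.1 := by
  obtain ⟨e, G, u, v, -, -, h2, -, -, H⟩ := h
  have hw : ((z.1, e.symm z.2) : X × c'.V) ∈ G := by
    refine h2 (z.1, e.symm z.2) ?_
    simpa only [ContinuousLinearEquiv.apply_symm_apply] using hz
  obtain ⟨a1, -, -, -, a5⟩ := H _ hw
  simp only [ContinuousLinearEquiv.apply_symm_apply, Prod.mk.eta] at a5
  refine ⟨(z.1, e.symm z.2), ⟨a1, ?_⟩, rfl⟩
  rw [← a5, hz.2, map_zero]

theorem ge {X : Type} [TopologicalSpace X] {V W : FD} {O O' : Set (X × V)}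
    {p p' : X × V → W →L[ℂ] W} {s s' : X × V → W} (hc : Raw.Good ⟨V, W, O, p, s⟩)
    (h : GE O p s O' p' s') : IG ⟨V, W, O, p, s⟩ ⟨V, W, O', p', s'⟩ := by
  obtain ⟨G, hG, h1, h2, h3, h4, h5, h6⟩ := h
  refine ⟨ContinuousLinearEquiv.refl ℂ V, G, p, p, hG, fun z hz => h6 z hz.1 hz.2,
    fun z hz => h5 z hz.1 hz.2, hc.cp.mono h1, hc.cp.mono h1, fun z hz => ?_⟩
  have a1 : p z ∘L p z = p z := hc.idem z (h1 hz)
  have a2 : p z (s z) = s z := hc.sec z (h1 hz)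
  exact ⟨h2 hz, h1 hz, a1, a1.trans (h3 hz), a2.trans (h4 hz)⟩

end XIG1

theorem ig1 : S_IG1 :=
  ⟨XIG1.symm, XIG1.trans, XIG1.pull, fun _ h => XIG1.zero h, XIG1.ge⟩

end Pool.Agent.MP_826def_gt.BM
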