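import Pool.Agent.MP_826def_gt.BM.Spec

/-!
Calculus of isomorphic germs, second part.
-/

namespace Pool.Agent.MP_826def_gt.BM

open Set Topology MU

noncomputable section

namespace XIG2

variable {X U : Type}

theorem ext_apply {j : U → X} (hj : Function.Injective j) {V β : Type} (f : U × V → β)
    (g : X × V → β) (u : U) (v : V) :
    Function.extend (Prod.map j id) f g (j u, v) = f (u, v) :=
  (hj.prodMap Function.injective_id).extend_apply f g (u, v)

/-- Regrouping of the two stabilising spaces. -/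
def reg (V E F K : FD) (φ : K ≃L[ℂ] E × F) : (V × K) ≃L[ℂ] (V × E) × F :=
  ((ContinuousLinearEquiv.refl ℂ V).prodCongr φ).trans (ContinuousLinearEquiv.prodAssoc ℂ V E F).symm

theorem reg_apply (V E F K : FD) (φ : K ≃L[ℂ] E × F) (z : V × K) :
    reg V E F K φ z = ((z.1, (φ z.2).1), (φ z.2).2) := rfl

theorem reg_symm (V E F K : FD) (φ : K ≃L[ℂ] E × F) (z : (V × E) × F) :
    (reg V E F K φ).symm z = (z.1.1, φ.symm (z.1.2, z.2)) := rfl

variable [TopologicalSpace X] [TopologicalSpace U]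

theorem cont_prod {Y : Type} [TopologicalSpace Y] {A B : FD} (E : FD) {u : Y → A →L[ℂ] B}
    {G : Set Y} (hu : ContinuousOn u G) :
    ContinuousOn (fun z => (u z).prodMap (ContinuousLinearMap.id ℂ E)) G :=
  (ContinuousLinearMap.prodMapL ℂ A B E E).continuous.comp_continuousOn
    (hu.prodMk continuousOn_const)

theorem cont_fst (V E : FD) : Continuous fun z : X × (V × E) => (z.1, z.2.1) := by fun_prop

theorem stab {c c' : Raw X} (E : FD) (h : IG c c') : IG (c.stab E) (c'.stab E) := by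
  obtain ⟨e, G, u, v, hG, hZ, hZ', hu, hv, H⟩ := h
  have hf := cont_fst (X := X) c'.V E
  refine ⟨e.prodCongr (ContinuousLinearEquiv.refl ℂ E), {z | (z.1, z.2.1) ∈ G},
    fun z => (u (z.1, z.2.1)).prodMap (ContinuousLinearMap.id ℂ E),
    fun z => (v (z.1, z.2.1)).prodMap (ContinuousLinearMap.id ℂ E), hG.preimage hf,
    fun z hz => hZ ⟨hz.1, congrArg Prod.fst hz.2⟩,
    fun z hz => hZ' (z.1, z.2.1) ⟨hz.1, congrArg Prod.fst hz.2⟩,
    cont_prod E (hu.comp hf.continuousOn fun _ hz => hz),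
    cont_prod E (hv.comp hf.continuousOn fun _ hz => hz), fun z hz => ?_⟩
  obtain ⟨h1, h2, h3, h4, h5⟩ := H _ hz
  exact ⟨h1, h2,
    ContinuousLinearMap.ext fun w => Prod.ext (congrArg (fun q : c.W →L[ℂ] c.W => q w.1) h3) rfl,
    ContinuousLinearMap.ext fun w => Prod.ext (congrArg (fun q : c'.W →L[ℂ] c'.W => q w.1) h4) rfl,
    Prod.ext h5 rfl⟩

theorem stab2 {c : Raw X} (E F K : FD) (φ : K ≃L[ℂ] E × F) (hc : c.Good) :
    IG ((c.stab E).stab F) (c.stab K) := by
  have hf := cont_fst (X := X) c.V K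
  have hp : ContinuousOn (c.stab K).p (c.stab K).O :=
    cont_prod K (hc.cp.comp hf.continuousOn fun _ hz => hz)
  let A : (c.W × E) × F →L[ℂ] c.W × K := (reg c.W E F K φ).symm
  let B : c.W × K →L[ℂ] (c.W × E) × F := reg c.W E F K φ
  have hu : ContinuousOn (fun z => (c.stab K).p z ∘L A) (c.stab K).O :=
    hp.clm_comp continuousOn_const
  have hv : ContinuousOn (fun z => B ∘L (c.stab K).p z) (c.stab K).O :=
    continuousOn_const.clm_comp hp
  refine ⟨reg c.V E F K φ, (c.stab K).O, fun z => (c.stab K).p z ∘L A,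
    fun z => B ∘L (c.stab K).p z, hc.op.preimage hf, fun z hz => hz.1, fun z hz => hz.1, hu, hv,
    fun z hz => ?_⟩
  have hi : ∀ w, c.p (z.1, z.2.1) (c.p (z.1, z.2.1) w) = c.p (z.1, z.2.1) w := fun w =>
    congrArg (fun q : c.W →L[ℂ] c.W => q w) (hc.idem _ hz)
  refine ⟨hz, hz, ContinuousLinearMap.ext fun w => ?_, ContinuousLinearMap.ext fun w => ?_, ?_⟩
  · have e1 : φ (φ.symm (w.1.2, w.2)) = (w.1.2, w.2) := φ.apply_symm_apply _
    have e2 := congrArg Prod.fst e1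
    have e3 := congrArg Prod.snd e1
    exact Prod.ext (Prod.ext (hi w.1.1) e2) e3
  · exact Prod.ext (hi w.1) (φ.symm_apply_apply w.2)
  · exact Prod.ext (hc.sec _ hz) (φ.symm_apply_apply z.2.2)

theorem viso {c : Raw X} (V' : FD) (e : V' ≃L[ℂ] c.V) (hc : c.Good) : IG c (c.viso V' e) := by
  have hf : Continuous fun z : X × V' => (z.1, e z.2) := by fun_prop
  have hp : ContinuousOn (c.viso V' e).p (c.viso V' e).O :=
    hc.cp.comp hf.continuousOn fun _ hz => hz
  exact ⟨e, (c.viso V' e).O, (c.viso V' e).p, (c.viso V' e).p, hc.op.preimage hf,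
    fun z hz => hz.1, fun z hz => hz.1, hp, hp,
    fun z hz => ⟨hz, hz, hc.idem _ hz, hc.idem _ hz, hc.sec _ hz⟩⟩

theorem wemb {c : Raw X} (W' : FD) (j : c.W →L[ℂ] W') (r : W' →L[ℂ] c.W)
    (hr : r ∘L j = ContinuousLinearMap.id ℂ c.W) (hc : c.Good) : IG c (c.wemb W' j r) := by
  refine ⟨ContinuousLinearEquiv.refl ℂ c.V, c.O, fun z => j ∘L c.p z, fun z => c.p z ∘L r, hc.op,
    fun z hz => hz.1, fun z hz => hz.1, continuousOn_const.clm_comp hc.cp,
    hc.cp.clm_comp continuousOn_const, fun z hz => ⟨hz, hz, ?_, ?_, congrArg j (hc.sec z hz)⟩⟩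
  · show (c.p z ∘L r) ∘L j ∘L c.p z = c.p z
    rw [ContinuousLinearMap.comp_assoc, ← ContinuousLinearMap.comp_assoc r, hr,
      ContinuousLinearMap.id_comp, hc.idem z hz]
  · show (j ∘L c.p z) ∘L c.p z ∘L r = j ∘L c.p z ∘L r
    rw [ContinuousLinearMap.comp_assoc, ← ContinuousLinearMap.comp_assoc (c.p z), hc.idem z hz]

theorem push {c : Raw U} {j : U → X} (hj : IsOpenEmbedding j) (hc : c.Good) :
    IG c ((c.push j).pull j) := by
  have inj := hj.injective
  refine ⟨ContinuousLinearEquiv.refl ℂ c.V, c.O, c.p, c.p, hc.op, fun z hz => ?_,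
    fun z hz => hz.1, hc.cp, hc.cp, fun z hz => ⟨⟨z, hz, rfl⟩, hz, hc.idem z hz,
      (hc.idem z hz).trans (ext_apply inj c.p 0 z.1 z.2).symm,
      (hc.sec z hz).trans (ext_apply inj c.s 0 z.1 z.2).symm⟩⟩
  obtain ⟨w, hw, e⟩ := hz.1
  have : w = z := (inj.prodMap Function.injective_id) e
  exact this ▸ hw

theorem pp {c : Raw X} {j : U → X} (hj : IsOpenEmbedding j) (hc : c.Good)
    (hZ : ∀ z ∈ c.Z, z.1 ∈ range j) : IG c ((c.pull j).push j) := by
  have inj := hj.injective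
  refine ⟨ContinuousLinearEquiv.refl ℂ c.V, c.O ∩ Prod.fst ⁻¹' range j, c.p, c.p,
    hc.op.inter (hj.isOpen_range.preimage continuous_fst), ?_,
    fun z hz => ⟨hz.1, hZ _ hz⟩, hc.cp.mono inter_subset_left, hc.cp.mono inter_subset_left, ?_⟩
  · rintro _ ⟨⟨w, hw, rfl⟩, -⟩
    exact ⟨hw, w.1, rfl⟩
  · rintro ⟨x, v⟩ ⟨hz, u, e⟩
    obtain rfl : j u = x := e
    exact ⟨⟨(u, v), hz, rfl⟩, hz, hc.idem _ hz,
      (hc.idem _ hz).trans (ext_apply inj (c.pull j).p 0 u v).symm,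
      (hc.sec _ hz).trans (ext_apply inj (c.pull j).s 0 u v).symm⟩

end XIG2

theorem ig2 : S_IG2 :=
  ⟨XIG2.stab, XIG2.stab2, XIG2.viso, XIG2.wemb, XIG2.push, XIG2.pp⟩

end

end Pool.Agent.MP_826def_gt.BM
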