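import Pool.Agent.MP_826def_gt.BM.Spec
import Pool.Agent.MP_826def_gt.BA.Eqv

/-! Isomorphic germs are joined by a homotopy inside the sum of the ambient spaces. -/

namespace Pool.Agent.MP_826def_gt.BM

open Set Topology MU BA

noncomputable section

theorem isoH : S_IsoH := by
  intro X _ V W W' O O' G p p' s s' u v ha hb hG hZ hZ' hu hv H
  have hGO : G ⊆ O := fun z hz => (H z hz).2.1
  have hGO' : G ⊆ O' := fun z hz => (H z hz).1
  have hp : ContinuousOn p G := ha.cp.mono hGO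
  have hs : ContinuousOn s G := ha.cs.mono hGO
  have hid : ∀ z ∈ G, p z ∘L p z = p z := fun z hz => ha.idem z (hGO hz)
  have hsec : ∀ z ∈ G, p z (s z) = s z := fun z hz => ha.sec z (hGO hz)
  have hid' : ∀ z ∈ G, p' z ∘L p' z = p' z := fun z hz => hb.idem z (hGO' hz)
  let π : (X × unitInterval) × V → X × V := fun z => (z.1.1, z.2)
  have hπ : Continuous π := by fun_prop
  let ι : (X × unitInterval) × V → W →L[ℂ] W.prod W' := fun z =>
    eqvI (eqvA z.1.2) (eqvB z.1.2) (p (π z)) (u (π z))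
  let ρ : (X × unitInterval) × V → W.prod W' →L[ℂ] W := fun z =>
    eqvR (eqvA z.1.2) (eqvB z.1.2) (p (π z)) (v (π z))
  let C : Raw (X × unitInterval) := ⟨V, W.prod W', π ⁻¹' G, fun z => ι z ∘L ρ z,
    fun z => ι z (s (π z))⟩
  have hA : Continuous fun z : (X × unitInterval) × V => eqvA z.1.2 :=
    eqvA_cont.comp (by fun_prop)
  have hB : Continuous fun z : (X × unitInterval) × V => eqvB z.1.2 :=
    eqvB_cont.comp (by fun_prop)
  have cp : ContinuousOn (fun z => p (π z)) (π ⁻¹' G) := hp.comp hπ.continuousOn fun _ h => h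
  have cs : ContinuousOn (fun z => s (π z)) (π ⁻¹' G) := hs.comp hπ.continuousOn fun _ h => h
  have cu : ContinuousOn (fun z => u (π z)) (π ⁻¹' G) := hu.comp hπ.continuousOn fun _ h => h
  have cv : ContinuousOn (fun z => v (π z)) (π ⁻¹' G) := hv.comp hπ.continuousOn fun _ h => h
  have cι : ContinuousOn ι (π ⁻¹' G) :=
    (hA.continuousOn.smul (continuousOn_const.clm_comp cp)).add
      (hB.continuousOn.smul (continuousOn_const.clm_comp (cu.clm_comp cp)))
  have cρ : ContinuousOn ρ (π ⁻¹' G) :=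
    (hA.continuousOn.smul (cp.clm_comp continuousOn_const)).add
      (hB.continuousOn.smul ((cp.clm_comp cv).clm_comp continuousOn_const))
  have hρι : ∀ z ∈ π ⁻¹' G, ∀ w, ρ z (ι z w) = p (π z) w := fun z hz w =>
    eqvRI (eqvAB z.1.2) (hid _ hz) (H _ hz).2.2.1 w
  have hιp : ∀ z ∈ π ⁻¹' G, ∀ w, ι z (p (π z) w) = ι z w := fun z hz w =>
    eqvIp _ _ _ (hid _ hz) w
  have hC : C.Good := by
    refine ⟨hG.preimage hπ, cι.clm_comp cρ, cι.clm_apply cs, fun z hz => ?_, fun z hz => ?_, ?_⟩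
    · refine ContinuousLinearMap.ext fun w => ?_
      show ι z (ρ z (ι z (ρ z w))) = ι z (ρ z w)
      rw [hρι z hz, hιp z hz]
    · show ι z (ρ z (ι z (s (π z)))) = ι z (s (π z))
      rw [hρι z hz, hιp z hz]
    · have hK : IsCompact ((fun y : (X × V) × unitInterval => ((y.1.1, y.2), y.1.2)) ''
          ((⟨V, W, O, p, s⟩ : Raw X).Z ×ˢ univ)) :=
        (ha.cpt.prod isCompact_univ).image (by fun_prop)
      have : C.Z = (fun y : (X × V) × unitInterval => ((y.1.1, y.2), y.1.2)) ''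
          ((⟨V, W, O, p, s⟩ : Raw X).Z ×ˢ univ) := by
        ext z
        constructor
        · rintro ⟨h1, h2⟩
          refine ⟨(π z, z.1.2), ⟨⟨hGO h1, ?_⟩, mem_univ _⟩, rfl⟩
          have h2' : ι z (s (π z)) = 0 := h2
          have h3 := hρι z h1 (s (π z))
          rw [h2', map_zero, hsec _ h1] at h3
          exact h3.symm
        · rintro ⟨y, ⟨⟨h1, h2⟩, -⟩, rfl⟩
          refine ⟨hZ _ h1 h2, ?_⟩
          have h2' : s y.1 = 0 := h2
          show ι _ (s y.1) = 0
          rw [h2', map_zero]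
      rw [this]
      exact hK
  refine ⟨π ⁻¹' G, C.p, C.s, hC, ⟨G, hG, hGO, fun _ h => h, fun z hz => ?_, fun z hz => ?_,
    fun z hz h0 => hZ z hz (congrArg Prod.fst h0), fun _ h _ => h⟩,
    ⟨G, hG, fun _ h => h, hGO', fun z hz => ?_, fun z hz => ?_, fun _ h _ => h,
    fun z hz h0 => hZ' z hz (congrArg Prod.snd h0)⟩⟩
  · refine ContinuousLinearMap.ext fun w => ?_
    obtain ⟨w, w'⟩ := w
    have h1 : ∀ w, p z (p z w) = p z w := fun w =>
      congrArg (fun q : W →L[ℂ] W => q w) (hid z hz)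
    show (p z w, (0 : W')) = eqvI (eqvA 0) (eqvB 0) (p z) (u z)
      (eqvR (eqvA 0) (eqvB 0) (p z) (v z) (w, w'))
    rw [eqvI_apply, eqvR_apply, eqvA_zero, eqvB_zero]
    simp [h1]
  · show (s z, (0 : W')) = eqvI (eqvA 0) (eqvB 0) (p z) (u z) (s z)
    rw [eqvI_apply, eqvA_zero, eqvB_zero, hsec z hz]
    simp
  · refine ContinuousLinearMap.ext fun w => ?_
    obtain ⟨w, w'⟩ := w
    have h1 : ∀ w, p z (p z w) = p z w := fun w =>
      congrArg (fun q : W →L[ℂ] W => q w) (hid z hz)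
    have h2 : ∀ w, v z (u z w) = p z w := fun w =>
      congrArg (fun q : W →L[ℂ] W => q w) (H z hz).2.2.1
    have h3 : ∀ w, u z (v z w) = p' z w := fun w =>
      congrArg (fun q : W' →L[ℂ] W' => q w) (H z hz).2.2.2.1
    have h4 : ∀ w, p' z (p' z w) = p' z w := fun w =>
      congrArg (fun q : W' →L[ℂ] W' => q w) (hid' z hz)
    symm
    show ((0 : W), p' z w') = eqvI (eqvA 1) (eqvB 1) (p z) (u z)
      (eqvR (eqvA 1) (eqvB 1) (p z) (v z) (w, w'))
    rw [eqvI_apply, eqvR_apply, eqvA_one, eqvB_one]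
    simp only [zero_smul, one_smul, zero_add, h1]
    rw [← h2, h3, h3, h4]
  · symm
    show ((0 : W), s' z) = eqvI (eqvA 1) (eqvB 1) (p z) (u z) (s z)
    rw [eqvI_apply, eqvA_one, eqvB_one, hsec z hz, (H z hz).2.2.2.2]
    simp

end

end Pool.Agent.MP_826def_gt.BM
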