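import Pool.Agent.MP_826def_gt.BM.LesCone

/-! The long exact sequence of a pair. -/

namespace Pool.Agent.MP_826def_gt.BM

open Set Topology MU
open scoped NNReal

noncomputable section

namespace Les

variable {X Y U : Type} [TopologicalSpace X] [TopologicalSpace Y] [TopologicalSpace U]
  [Fact Core]

open Classical in
/-- The connecting map from odd to even degrees. -/
def del1 (i : C(Y, X)) (j : C(U, X)) : h (Y × ℝ) →+ h U :=
  if hJ : Function.Bijective (push (cJ i j)) then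
    (AddEquiv.ofBijective _ hJ).symm.toAddMonoidHom.comp (push (cK i)) else 0

def bg (Y : Type) [TopologicalSpace Y] : C((Y × ℝ) × ℝ, Y) := ⟨fun z => z.1.1, by fun_prop⟩

def bs (Y : Type) [TopologicalSpace Y] : C((Y × ℝ) × ℝ, ℂ) :=
  ⟨fun z => z.1.2 + z.2 * Complex.I, by fun_prop⟩

/-- The periodicity map. -/
def bott (Y : Type) [TopologicalSpace Y] : h Y →+ h ((Y × ℝ) × ℝ) :=
  twist (bg Y) ((Bun.triv Y FD.C).pull (bg Y)) (bs Y)

/-- The connecting map. -/
def del (i : C(Y, X)) (j : C(U, X)) : H Y →+ H U :=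
  ((del1 i j).comp (AddMonoidHom.snd _ _)).prod
    (((del1 (xR i) (xR j)).comp (bott Y)).comp (AddMonoidHom.fst _ _))

theorem del_apply (i : C(Y, X)) (j : C(U, X)) (y : H Y) :
    del i j y = (del1 i j y.2, del1 (xR i) (xR j) (bott Y y.1)) := rfl

omit [Fact Core] in
theorem bott_tot (Y : Type) [TopologicalSpace Y] : IsTot (Bun.triv Y FD.C) (bg Y) (bs Y) := by
  constructor
  · refine Function.LeftInverse.isEmbedding (f := fun z : Y × ℂ => ((z.1, z.2.re), z.2.im))
      (fun z => ?_) (by fun_prop) (by fun_prop)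
    simp [bg, bs]
  · refine Set.ext fun z => ⟨fun _ => rfl, fun _ => ⟨((z.1, z.2.re), z.2.im), ?_⟩⟩
    exact Prod.ext rfl (Complex.re_add_im z.2)

theorem bott_pull (A : Api) (t : S_Thom) (f : C(Y, X)) (hf : IsProperMap f) (x : h X) :
    pull (xR (xR f)) (bott X x) = bott Y (pull f x) :=
  ((A.tw.pull_twist _ _ _ (xR (xR f)) (t _ _ _ (bott_tot X)).1
    ((hf.prodMap isProperMap_id).prodMap isProperMap_id)).2 x).trans
    ((A.tw.twist_pull _ _ _ f (t _ _ _ (bott_tot Y)).1 hf).2 x).symm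

variable [T2Space X] [LocallyCompactSpace X] {i : C(Y, X)} {j : C(U, X)}

theorem ex1 (A : Api) (mv : S_MV0) (P : Pair i j) : Function.Exact (push j) (pull i) := by
  let eY : C(Empty, Y) := ⟨Empty.elim, continuous_of_discreteTopology⟩
  let eU : C(Empty, U) := ⟨Empty.elim, continuous_of_discreteTopology⟩
  have hY : IsOpenEmbedding eY := IsOpenEmbedding.of_isEmpty _
  have hm : ∀ y, i y ∈ range j → y ∈ range eY := fun y hy => by
    rw [P.co] at hy
    exact absurd ⟨y, rfl⟩ hy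
  intro x
  constructor
  · intro hx
    obtain ⟨w, hw, -⟩ := mvc mv i j eY eU P.cl P.op hY
      ⟨(IsOpenEmbedding.of_isEmpty eU).isEmbedding, by rw [range_eq_empty]; exact isClosed_empty⟩
      (by rw [P.co, union_compl_self]) (fun t => t.elim) hm x 0 (by rw [hx, map_zero])
    exact ⟨w, hw⟩
  · rintro ⟨u, rfl⟩
    rw [(A.fn.bc i j eY eU P.cl.isProperMap P.op hY (fun t => t.elim) hm).2,
      A.fn.empty (pull eU u), map_zero]

theorem cJ_bij (A : Api) (mv : S_MV0) (P : Pair i j) : Function.Bijective (push (cJ i j)) := by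
  have := cn_lc P.cl
  refine ⟨(injective_iff_map_eq_zero _).2 fun u hu => ?_,
    fun m => (ex1 A mv (pairJ P) m).1 (half A _)⟩
  obtain ⟨w, -, hw⟩ := mvc mv (incl i) (xN j) (cJ i j) (bot U) (incl_closed P.cl)
    (P.op.prodMap IsOpenEmbedding.id) (pairJ P).op bot_closed
    (eq_univ_of_forall fun z => by
      by_cases hz : z.1 ∈ range i
      · exact Or.inl ⟨⟨z, Or.inr hz⟩, rfl⟩
      · obtain ⟨u, hu⟩ : z.1 ∈ range j := by rwa [P.co]
        exact Or.inr ⟨(u, z.2), Prod.ext hu rfl⟩)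
    (fun _ => rfl) (fun m ⟨u, hu⟩ => (mem_cJ P).2 ⟨u.1, congrArg Prod.fst hu⟩) 0 u
    (by rw [hu, map_zero])
  rw [← hw, half A w, map_zero]

theorem del1_spec (A : Api) (mv : S_MV0) (P : Pair i j) (w : h (Y × ℝ)) :
    push (cJ i j) (del1 i j w) = push (cK i) w := by
  rw [del1, dif_pos (cJ_bij A mv P)]
  exact (AddEquiv.ofBijective _ (cJ_bij A mv P)).apply_symm_apply _

theorem ex2 (A : Api) (mv : S_MV0) (P : Pair i j) : Function.Exact (del1 i j) (push j) := by
  have := cn_lc P.cl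
  intro u
  have h1 := (A.fn.bc (c0 i) (cJ i j) j (ContinuousMap.id U) c0_closed.isProperMap (pairJ P).op
    P.op (fun _ => rfl) fun x hx => (mem_cJ P).1 hx).2 u
  rw [pull_id] at h1
  rw [← h1, ex1 A mv (pairK P.cl)]
  refine exists_congr fun w => ?_
  rw [← del1_spec A mv P]
  exact (cJ_bij A mv P).1.eq_iff

theorem ex3 (A : Api) (mv : S_MV0) (P : Pair i j) : Function.Exact (pull (xR i)) (del1 i j) := by
  intro w
  rw [← (cJ_bij A mv P).1.eq_iff, del1_spec A mv P, map_zero]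
  have hm : ∀ m, incl i m ∈ range (top X) → m ∈ range (cK i) := fun m hm =>
    mem_cK.2 (mem_top.1 hm)
  constructor
  · intro hw
    obtain ⟨v, -, hv⟩ := mvc mv (incl i) (top X) (cK i) (xR i) (incl_closed P.cl) top_open
      (pairK P.cl).op (pairR P).cl
      (eq_univ_of_forall fun z => by
        by_cases hz : z.2 = 0
        · exact Or.inl ⟨⟨z, Or.inl hz⟩, rfl⟩
        · exact Or.inr (mem_top.2 hz))
      (fun _ => rfl) hm 0 w (by rw [hw, map_zero])
    exact ⟨v, hv⟩
  · rintro ⟨v, rfl⟩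
    rw [← (A.fn.bc (incl i) (top X) (cK i) (xR i) (incl_closed P.cl).isProperMap top_open
      (pairK P.cl).op (fun _ => rfl) hm).2, half A (push (top X) v), map_zero]

theorem del1_part (A : Api) (mv : S_MV0) (P : Pair i j) (d : ℤ) (w : h (Y × ℝ)) :
    part d (del1 i j w) = del1 i j (part d w) := (cJ_bij A mv P).1 (by
  rw [← A.deg.push, del1_spec A mv P, del1_spec A mv P, A.deg.push])

theorem del1_act (A : Api) (mv : S_MV0) (P : Pair i j) {K : Type} [TopologicalSpace K]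
    [CompactSpace K] [T2Space K] (f : C(X, K)) (a : h K) (w : h (Y × ℝ)) :
    del1 i j (act ((f.comp i).comp ContinuousMap.fst) a w) = act (f.comp j) a (del1 i j w) := by
  let F : C(Cn i, K) := (f.comp ContinuousMap.fst).comp (incl i)
  refine (cJ_bij A mv P).1 ?_
  rw [del1_spec A mv P]
  refine ((A.act.push F (cK i) a).1 w).trans ?_
  rw [← del1_spec A mv P]
  exact ((A.act.push F (cJ i j) a).1 _).symm

section nat

variable {X' Y' U' : Type} [TopologicalSpace X'] [TopologicalSpace Y'] [TopologicalSpace U']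
  {i' : C(Y', X')} {j' : C(U', X')} {f : C(X', X)} {fY : C(Y', Y)} {fU : C(U', U)}

omit [Fact Core] [T2Space X] [LocallyCompactSpace X] in
theorem fY_proper (P : Pair i j) (P' : Pair i' j') (hf : IsProperMap f)
    (hY : ∀ y, i (fY y) = f (i' y)) : IsProperMap fY :=
  isProperMap_of_comp_of_inj fY.continuous i.continuous
    (by rw [show i ∘ fY = f ∘ i' from funext hY]; exact hf.comp P'.cl.isProperMap) P.cl.injective

theorem del1_nat [T2Space X'] [LocallyCompactSpace X'] (A : Api) (mv : S_MV0) (P : Pair i j)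
    (P' : Pair i' j') (hf : IsProperMap f) (hY : ∀ y, i (fY y) = f (i' y))
    (hU : ∀ u, j (fU u) = f (j' u)) (w : h (Y × ℝ)) :
    del1 i' j' (pull (xR fY) w) = pull fU (del1 i j w) := by
  let F : C(Cn i', Cn i) := ⟨fun z => ⟨(f z.1.1, z.1.2), z.2.imp id fun ⟨y, hy⟩ =>
    ⟨fY y, (hY y).trans (congrArg f hy)⟩⟩, ((xN f).comp (incl i')).continuous.subtype_mk _⟩
  have hF : IsProperMap F := isProperMap_of_comp_of_inj F.continuous (incl i).continuous
    ((hf.prodMap isProperMap_id).comp (incl_closed P'.cl).isProperMap) incl_emb.injective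
  refine (cJ_bij A mv P').1 ?_
  rw [del1_spec A mv P', ← (A.fn.bc F (cK i) (cK i') (xR fY) hF (pairK P.cl).op (pairK P'.cl).op
    (fun u => Subtype.ext (Prod.ext (hY _) rfl)) fun z hz =>
      mem_cK.2 ((mem_cK (z := F z)).1 hz)).2,
    ← del1_spec A mv P]
  refine (A.fn.bc F (cJ i j) (cJ i' j') fU hF (pairJ P).op (pairJ P').op
    (fun u => Subtype.ext (Prod.ext (hU _) rfl)) fun z hz => (mem_cJ P').2 ?_).2 _
  have h1 : f z.1.1 ∈ range j := (mem_cJ P).1 hz
  rw [P.co] at h1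
  rw [P'.co]
  rintro ⟨y, hy⟩
  exact h1 ⟨fY y, (hY y).trans (congrArg f hy)⟩

end nat

theorem exact (A : Api) (mv : S_MV0) (t : S_Thom) (P : Pair i j) :
    Function.Exact (Hpush j) (Hpull i) ∧ Function.Exact (Hpull i) (del i j) ∧
      Function.Exact (del i j) (Hpush j) := by
  have bX : Function.Bijective (bott X) := (t _ _ _ (bott_tot X)).2.1
  have bY : Function.Bijective (bott Y) := (t _ _ _ (bott_tot Y)).2.1
  refine ⟨fun x => ⟨fun hx => ?_, ?_⟩, fun y => ⟨fun hy => ?_, ?_⟩, fun u => ⟨fun hu => ?_, ?_⟩⟩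
  · obtain ⟨a, ha⟩ := (ex1 A mv P x.1).1 (congrArg Prod.fst hx)
    obtain ⟨b, hb⟩ := (ex1 A mv (pairR P) x.2).1 (congrArg Prod.snd hx)
    exact ⟨(a, b), Prod.ext ha hb⟩
  · rintro ⟨u, rfl⟩
    exact Prod.ext ((ex1 A mv P).apply_apply_eq_zero _) ((ex1 A mv (pairR P)).apply_apply_eq_zero _)
  · obtain ⟨b, hb⟩ := (ex3 A mv P y.2).1 (congrArg Prod.fst hy)
    obtain ⟨a, ha⟩ := (ex3 A mv (pairR P) (bott Y y.1)).1 (congrArg Prod.snd hy)
    obtain ⟨a, rfl⟩ := bX.2 a
    rw [bott_pull A t i P.cl.isProperMap] at ha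
    exact ⟨(a, b), Prod.ext (bY.1 ha) hb⟩
  · rintro ⟨x, rfl⟩
    refine Prod.ext ((ex3 A mv P).apply_apply_eq_zero _) ?_
    show del1 (xR i) (xR j) (bott Y (pull i x.1)) = 0
    rw [← bott_pull A t i P.cl.isProperMap]
    exact (ex3 A mv (pairR P)).apply_apply_eq_zero _
  · obtain ⟨b, hb⟩ := (ex2 A mv P u.1).1 (congrArg Prod.fst hu)
    obtain ⟨a, ha⟩ := (ex2 A mv (pairR P) u.2).1 (congrArg Prod.snd hu)
    obtain ⟨a, rfl⟩ := bY.2 a
    exact ⟨(a, b), Prod.ext hb ha⟩
  · rintro ⟨y, rfl⟩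
    exact Prod.ext ((ex2 A mv P).apply_apply_eq_zero _) ((ex2 A mv (pairR P)).apply_apply_eq_zero _)

end Les

open Les in
theorem les [Fact Core] (A : Api) (mv : S_MV0) (t : S_Thom) : S_LES := by
  refine ⟨fun i j => del i j, fun i j P => exact A mv t P, ?_, ?_, ?_⟩
  · intro X Y U X' Y' U' _ _ _ _ _ _ _ _ _ _ i j i' j' f fY fU P P' hf hY hU y
    refine Prod.ext (del1_nat A mv P P' hf hY hU _) ?_
    show del1 (xR i') (xR j') (bott Y' (pull fY y.1)) = pull (xR fU) (del1 _ _ (bott Y y.1))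
    rw [← bott_pull A t fY (fY_proper P P' hf hY)]
    exact del1_nat A mv (f := xR f) (fY := xR fY) (fU := xR fU) (pairR P) (pairR P')
      (hf.prodMap isProperMap_id) (fun y => Prod.ext (hY _) rfl) (fun u => Prod.ext (hU _) rfl) _
  · intro X Y U K _ _ _ _ _ _ _ _ i j f P a y
    refine Prod.ext (del1_act A mv P f a _) ?_
    show del1 (xR i) (xR j) (bott Y (act (f.comp i) a y.1)) =
      act ((f.comp j).comp ContinuousMap.fst) a (del1 _ _ (bott Y y.1))
    rw [bott, (A.act.twist _ _ _ _ a).1]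
    exact del1_act A mv (pairR P) (f.comp ContinuousMap.fst) a _
  · intro X Y U _ _ _ _ _ i j P d e y hy
    refine ⟨(del1_part A mv P _ _).trans (congrArg _ hy.2),
      (del1_part A mv (pairR P) _ _).trans (congrArg _ ?_)⟩
    have h1 : ((Bun.triv Y FD.C).pull (bg Y)).Rk 1 := fun z =>
      (A.bun.rk_triv Y FD.C (bg Y z)).trans (Module.finrank_self ℂ)
    exact (A.deg.twist _ _ _ 1 h1 d y.1).trans (congrArg _ hy.1)

end

end Pool.Agent.MP_826def_gt.BM
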