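import Pool.Agent.MP_826def_gt.MU.Spec

/-! The cone of a pair and the maps into it. -/

namespace Pool.Agent.MP_826def_gt.BM.Les

open Set Topology MU
open scoped NNReal

noncomputable section

variable {X Y U : Type} [TopologicalSpace X] [TopologicalSpace Y] [TopologicalSpace U]

/-- The exponential map onto the positive numbers. -/
def ex : C(ℝ, ℝ≥0) := ⟨fun r => ⟨Real.exp r, (Real.exp_pos r).le⟩, by fun_prop⟩

theorem ex_range : range ex = {r | r ≠ 0} := by
  ext r
  constructor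
  · rintro ⟨s, rfl⟩ e
    exact (Real.exp_pos s).ne' (congrArg NNReal.toReal e)
  · intro hr
    exact ⟨Real.log r, NNReal.eq (Real.exp_log (NNReal.coe_pos.2 (pos_iff_ne_zero.2 hr)))⟩

theorem ex_emb : IsEmbedding ex :=
  Real.isOpenEmbedding_exp.isEmbedding.codRestrict {r : ℝ | 0 ≤ r} fun r => (Real.exp_pos r).le

theorem ex_open : IsOpenEmbedding ex := ⟨ex_emb, by rw [ex_range]; exact isOpen_ne⟩

theorem ex_ne (r : ℝ) : ex r ≠ 0 := by
  have : ex r ∈ range ex := mem_range_self r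
  rwa [ex_range] at this

/-- The bottom of the cylinder. -/
def bot (X : Type) [TopologicalSpace X] : C(X, X × ℝ≥0) := ⟨fun x => (x, 0), by fun_prop⟩

theorem bot_closed : IsClosedEmbedding (bot X) :=
  ⟨isEmbedding_prodMkLeft 0, by
    have : range (bot X) = {z | z.2 = 0} := by
      ext z
      exact ⟨by rintro ⟨x, rfl⟩; rfl, fun e => ⟨z.1, Prod.ext rfl e.symm⟩⟩
    rw [this]
    exact isClosed_eq continuous_snd continuous_const⟩

/-- The open part of the cylinder. -/
def top (X : Type) [TopologicalSpace X] : C(X × ℝ, X × ℝ≥0) := (ContinuousMap.id X).prodMap ex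

theorem top_open : IsOpenEmbedding (top X) := IsOpenEmbedding.id.prodMap ex_open

theorem mem_top {z : X × ℝ≥0} : z ∈ range (top X) ↔ z.2 ≠ 0 := by
  constructor
  · rintro ⟨w, rfl⟩
    exact ex_ne _
  · intro hz
    obtain ⟨r, hr⟩ : z.2 ∈ range ex := by rwa [ex_range]
    exact ⟨(z.1, r), Prod.ext rfl hr⟩

/-- The product with the half line. -/
abbrev xN (f : C(Y, X)) : C(Y × ℝ≥0, X × ℝ≥0) := f.prodMap (ContinuousMap.id ℝ≥0)

/-- The cone. -/
def Cn (i : C(Y, X)) : Type := {z : X × ℝ≥0 // z.2 = 0 ∨ z.1 ∈ range i}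

instance (i : C(Y, X)) : TopologicalSpace (Cn i) := instTopologicalSpaceSubtype

instance [T2Space X] (i : C(Y, X)) : T2Space (Cn i) :=
  inferInstanceAs (T2Space {z : X × ℝ≥0 // z.2 = 0 ∨ z.1 ∈ range i})

def incl (i : C(Y, X)) : C(Cn i, X × ℝ≥0) := ⟨Subtype.val, continuous_subtype_val⟩

def c0 (i : C(Y, X)) : C(X, Cn i) :=
  ⟨fun x => ⟨(x, 0), Or.inl rfl⟩, (bot X).continuous.subtype_mk _⟩

def c1 (i : C(Y, X)) : C(Y × ℝ≥0, Cn i) :=
  ⟨fun y => ⟨(i y.1, y.2), Or.inr ⟨_, rfl⟩⟩, (xN i).continuous.subtype_mk _⟩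

def cJ (i : C(Y, X)) (j : C(U, X)) : C(U, Cn i) := (c0 i).comp j

def cK (i : C(Y, X)) : C(Y × ℝ, Cn i) := (c1 i).comp (top Y)

variable {i : C(Y, X)} {j : C(U, X)}

theorem incl_closed (hi : IsClosedEmbedding i) : IsClosedEmbedding (incl i) :=
  IsClosed.isClosedEmbedding_subtypeVal
    ((isClosed_eq continuous_snd continuous_const).union
      (hi.isClosed_range.preimage continuous_fst))

theorem cn_lc [LocallyCompactSpace X] (hi : IsClosedEmbedding i) : LocallyCompactSpace (Cn i) :=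
  (incl_closed hi).locallyCompactSpace

theorem incl_emb : IsEmbedding (incl i) := IsEmbedding.subtypeVal

theorem closed_of {T : Type} [TopologicalSpace T] (f : C(T, Cn i))
    (hf : IsClosedEmbedding (incl i ∘ f)) : IsClosedEmbedding f :=
  ⟨incl_emb.of_comp_iff.1 hf.isEmbedding, by
    have := hf.isClosed_range.preimage (incl i).continuous
    rwa [range_comp, preimage_image_eq _ incl_emb.injective] at this⟩

theorem c0_closed : IsClosedEmbedding (c0 i) := closed_of _ bot_closed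

theorem c1_closed (hi : IsClosedEmbedding i) : IsClosedEmbedding (c1 i) :=
  closed_of _ (hi.prodMap IsClosedEmbedding.id)

theorem mem_c0 {z : Cn i} : z ∈ range (c0 i) ↔ z.1.2 = 0 :=
  ⟨by rintro ⟨x, rfl⟩; rfl, fun e => ⟨z.1.1, Subtype.ext (Prod.ext rfl e.symm)⟩⟩

theorem mem_c1 {z : Cn i} : z ∈ range (c1 i) ↔ z.1.1 ∈ range i :=
  ⟨by rintro ⟨x, rfl⟩; exact ⟨_, rfl⟩, fun ⟨y, e⟩ => ⟨(y, z.1.2), Subtype.ext (Prod.ext e rfl)⟩⟩

theorem mem_cK {z : Cn i} : z ∈ range (cK i) ↔ z.1.2 ≠ 0 := by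
  constructor
  · rintro ⟨w, rfl⟩
    exact ex_ne _
  · intro hz
    obtain ⟨y, hy⟩ := z.2.resolve_left hz
    obtain ⟨r, hr⟩ : z.1.2 ∈ range ex := by rwa [ex_range]
    exact ⟨(y, r), Subtype.ext (Prod.ext hy hr)⟩

theorem mem_cJ (P : Pair i j) {z : Cn i} : z ∈ range (cJ i j) ↔ z.1.1 ∈ range j := by
  constructor
  · rintro ⟨w, rfl⟩
    exact ⟨w, rfl⟩
  · intro hz
    have h0 := z.2.resolve_right (by rwa [P.co] at hz)
    obtain ⟨u, hu⟩ := hz
    exact ⟨u, Subtype.ext (Prod.ext hu h0.symm)⟩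

theorem pairK (hi : IsClosedEmbedding i) : Pair (c0 i) (cK i) := by
  have e : range (cK i) = (range (c0 i))ᶜ := Set.ext fun z => by
    rw [mem_cK, mem_compl_iff, mem_c0]
  exact ⟨c0_closed, ⟨(c1_closed hi).isEmbedding.comp top_open.isEmbedding,
    e ▸ c0_closed.isClosed_range.isOpen_compl⟩, e⟩

theorem pairJ (P : Pair i j) : Pair (c1 i) (cJ i j) := by
  have e : range (cJ i j) = (range (c1 i))ᶜ := Set.ext fun z => by
    rw [mem_cJ P, mem_compl_iff, mem_c1, P.co, mem_compl_iff]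
  exact ⟨c1_closed P.cl, ⟨c0_closed.isEmbedding.comp P.op.isEmbedding,
    e ▸ (c1_closed P.cl).isClosed_range.isOpen_compl⟩, e⟩

theorem pairR (P : Pair i j) : Pair (xR i) (xR j) := by
  refine ⟨P.cl.prodMap IsClosedEmbedding.id, P.op.prodMap IsOpenEmbedding.id, Set.ext fun z => ?_⟩
  have h1 : z ∈ range (xR j) ↔ z.1 ∈ range j :=
    ⟨by rintro ⟨w, rfl⟩; exact ⟨_, rfl⟩, fun ⟨y, e⟩ => ⟨(y, z.2), Prod.ext e rfl⟩⟩
  have h2 : z ∈ range (xR i) ↔ z.1 ∈ range i :=
    ⟨by rintro ⟨w, rfl⟩; exact ⟨_, rfl⟩, fun ⟨y, e⟩ => ⟨(y, z.2), Prod.ext e rfl⟩⟩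
  rw [h1, mem_compl_iff, h2, P.co, mem_compl_iff]

/-- The shift of the half cylinder. -/
def shift (T : Type) [TopologicalSpace T] (R : ℝ≥0) : C((T × ℝ≥0) × unitInterval, T × ℝ≥0) :=
  ⟨fun z => (z.1.1, z.1.2 + unitInterval.toNNReal z.2 * R), by fun_prop⟩

theorem shift_proper (T : Type) [TopologicalSpace T] (R : ℝ≥0) : IsProperMap (shift T R) := by
  have h1 : IsClosedEmbedding fun z : (T × ℝ≥0) × unitInterval => (shift T R z, z.2) := by
    refine ⟨Function.LeftInverse.isEmbedding (f := fun z : (T × ℝ≥0) × unitInterval =>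
      ((z.1.1, z.1.2 - unitInterval.toNNReal z.2 * R), z.2)) (fun z => ?_) (by fun_prop)
      (by fun_prop), ?_⟩
    · simp [shift]
    · have : (range fun z : (T × ℝ≥0) × unitInterval => (shift T R z, z.2)) =
          {z | unitInterval.toNNReal z.2 * R ≤ z.1.2} := by
        ext z
        constructor
        · rintro ⟨w, rfl⟩
          exact (le_add_self : _ ≤ w.1.2 + unitInterval.toNNReal w.2 * R)
        · intro hz
          exact ⟨((z.1.1, z.1.2 - unitInterval.toNNReal z.2 * R), z.2),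
            Prod.ext (Prod.ext rfl (tsub_add_cancel_of_le hz)) rfl⟩
      rw [this]
      exact isClosed_le (by fun_prop) (by fun_prop)
  exact isProperMap_fst_of_compactSpace.comp h1.isProperMap

theorem end_proper (T : Type) [TopologicalSpace T] (t : unitInterval) :
    IsProperMap fun x : T => (x, t) :=
  IsClosedEmbedding.isProperMap ⟨isEmbedding_prodMkLeft t, by
    have : (range fun x : T => (x, t)) = {z | z.2 = t} := by
      ext z
      exact ⟨by rintro ⟨x, rfl⟩; rfl, fun e => ⟨z.1, Prod.ext rfl e.symm⟩⟩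
    rw [this]
    exact isClosed_eq continuous_snd continuous_const⟩

variable [Fact Core]

/-- The group of a half cylinder vanishes. -/
theorem half (A : Api) {T : Type} [TopologicalSpace T] (x : h (T × ℝ≥0)) : x = 0 := by
  induction x using h_ind with | _ c hc => ?_
  obtain ⟨R, hR⟩ := (hc.cpt.image (f := fun z => z.1.2) (by fun_prop)).bddAbove
  let g : C(T × ℝ≥0, T × ℝ≥0) := (shift T (R + 1)).comp ⟨fun x => (x, 1), by fun_prop⟩
  have hg : IsProperMap g := (shift_proper T (R + 1)).comp (end_proper _ 1)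
  rw [← pull_id (cls c), A.fn.htpy (shift T (R + 1)) (ContinuousMap.id _) g (shift_proper _ _)
    (fun x => by simp [shift]) (fun _ => rfl), pull_cls hg hc]
  refine cls_empty ((Fact.out : Core).good1.pull hc hg) (eq_empty_of_forall_notMem fun z hz => ?_)
  have h1 : (g z.1).2 ≤ R := hR ⟨(g z.1, z.2), hz, rfl⟩
  have h2 : (g z.1).2 = z.1.2 + (R + 1) := by simp [g, shift]
  rw [h2] at h1
  exact absurd (le_add_self.trans h1) (not_le.2 (lt_add_one R))

/-- The Mayer-Vietoris property for classes. -/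
theorem mvc (mv : S_MV0) {N M G T : Type} [TopologicalSpace N] [TopologicalSpace M]
    [TopologicalSpace G] [TopologicalSpace T] [T2Space N] [LocallyCompactSpace N] (i : C(M, N))
    (j : C(G, N)) (k : C(T, M)) (l : C(T, G)) (hi : IsClosedEmbedding i) (hj : IsOpenEmbedding j)
    (hk : IsOpenEmbedding k) (hl : IsClosedEmbedding l) (hc : range i ∪ range j = univ)
    (e : ∀ t, i (k t) = j (l t)) (hm : ∀ m, i m ∈ range j → m ∈ range k) (x : h N) (y : h T)
    (hxy : pull i x = push k y) : ∃ w : h G, push j w = x ∧ pull l w = y := by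
  induction x using h_ind with | _ c hc' => ?_
  induction y using h_ind with | _ y hy => ?_
  rw [pull_cls hi.isProperMap hc', push_cls hk hy] at hxy
  obtain ⟨w, hw, h1, h2⟩ := mv i j k l hi hj hk hl hc e hm c y hc' hy hxy
  exact ⟨cls w, (push_cls hj hw).trans h1, (pull_cls hl.isProperMap hw).trans h2⟩

end

end Pool.Agent.MP_826def_gt.BM.Les
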