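import Pool.Agent.MP_826def_gt.BM.Spec

/-!
The Mayer-Vietoris property from the homotopy extension property.
-/

namespace Pool.Agent.MP_826def_gt.BM

open Set Topology MU

noncomputable section

namespace XMV

theorem pr_left {X : Type} [TopologicalSpace X] (y : unitInterval) :
    IsProperMap fun x : X => (x, y) := by
  refine IsClosedEmbedding.isProperMap ⟨isEmbedding_prodMkLeft y, ?_⟩
  have : range (fun x : X => (x, y)) = Prod.snd ⁻¹' {y} := by
    ext ⟨a, b⟩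
    simp [eq_comm]
  rw [this]
  exact isClosed_singleton.preimage continuous_snd

theorem ge_trans {Y : Type} [TopologicalSpace Y] {W : FD} {O O' O'' : Set Y}
    {p p' p'' : Y → W →L[ℂ] W} {s s' s'' : Y → W} (h : GE O p s O' p' s')
    (h' : GE O' p' s' O'' p'' s'') : GE O p s O'' p'' s'' := by
  obtain ⟨G, a1, a2, a3, a4, a5, a6, a7⟩ := h
  obtain ⟨H, b1, b2, b3, b4, b5, b6, b7⟩ := h'
  refine ⟨G ∩ H, a1.inter b1, fun z hz => a2 hz.1, fun z hz => b3 hz.2,
    fun z hz => (a4 hz.1).trans (b4 hz.2), fun z hz => (a5 hz.1).trans (b5 hz.2),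
    fun z hz h0 => ?_, fun z hz h0 => ?_⟩
  · exact ⟨a6 z hz h0, b6 z (a3 (a6 z hz h0)) ((a5 (a6 z hz h0)).symm.trans h0)⟩
  · exact ⟨a7 z (b2 (b7 z hz h0)) ((b5 (b7 z hz h0)).trans h0), b7 z hz h0⟩

theorem ig_eq (ev : S_eqv) {X : Type} [TopologicalSpace X] {c c' : Raw X} (hc : c.Good)
    (hc' : c'.Good) (h : IG c c') : cls c = cls c' := by
  obtain ⟨e, G, u, v, a1, a2, a3, a4, a5, a6⟩ := h
  exact ev c c' e G u v hc hc' a1 a2 a3 a4 a5 a6

theorem ig_refl (i1 : S_IG1) {X : Type} [TopologicalSpace X] {c : Raw X} (hc : c.Good) : IG c c :=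
  i1.ge (V := c.V) (W := c.W) (O := c.O) (p := c.p) (s := c.s) hc
    ⟨c.O, hc.op, Subset.rfl, Subset.rfl, fun _ _ => rfl, fun _ _ => rfl, fun _ h _ => h,
      fun _ h _ => h⟩

/-- Homotopy extension for isomorphic germs. -/
theorem hep (g1 : S_good1) (i1 : S_IG1) (i2 : S_IG2) (hI : S_IsoH) (hH : S_Hep0) {N M : Type}
    [TopologicalSpace N] [TopologicalSpace M] [T2Space N] [LocallyCompactSpace N] {i : M → N}
    (hi : IsClosedEmbedding i) {c : Raw N} {C : Raw (M × unitInterval)} (hc : c.Good)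
    (hC : C.Good) (h : IG (c.pull i) (C.pull fun x => (x, 0))) :
    ∃ c₁ : Raw N, c₁.Good ∧ cls c₁ = cls c ∧ IG (c₁.pull i) (C.pull fun x => (x, 1)) := by
  have gi := g1.pull hc hi.isProperMap
  have hsy := i1.symm gi h
  obtain ⟨e, G, u, v, a1, a2, a3, a4, a5, a6⟩ := hsy
  have gC := g1.viso (c := C) c.V e hC
  have g0 := g1.pull gC (pr_left 0)
  have gl := g1.wemb (c.W.prod C.W) (ContinuousLinearMap.inl ℂ c.W C.W)
    (ContinuousLinearMap.fst ℂ c.W C.W) rfl hc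
  have gr := g1.wemb (c := C.viso c.V e) (c.W.prod C.W) (ContinuousLinearMap.inr ℂ c.W C.W)
    (ContinuousLinearMap.snd ℂ c.W C.W) rfl gC
  obtain ⟨Q, q, t, gH, H0, H1⟩ := hI c.V c.W C.W _ _ G _ _ _ _ v u gi g0 a1
    (fun z hz h0 => a2 ⟨hz, h0⟩) (fun z hz h0 => a3 z ⟨hz, h0⟩) a5 a4 fun z hz => by
      obtain ⟨b1, b2, b3, b4, b5⟩ := a6 z hz
      refine ⟨b2, b1, b4, b3, ?_⟩
      have := congrArg (fun A => A ((C.pull fun x => (x, 0)).s (z.1, e z.2))) b3
      exact (congrArg (v z) b5.symm).trans (this.trans (g0.sec z b2))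
  obtain ⟨O₁, p₁, s₁, g₁, e₁, G₁⟩ := hH i c.V (c.W.prod C.W) _ _ _ Q q t hi gl gH H0
  obtain ⟨O₂, p₂, s₂, g₂, e₂, G₂⟩ := hH i c.V (c.W.prod C.W) _ _ _ _ _ _ hi g₁ gr (ge_trans G₁ H1)
  have k0 := g1.pull hC (pr_left 1)
  have k1 := g1.viso (c := C.pull fun x => (x, 1)) c.V e k0
  have k2 := g1.pull gr (pr_left 1)
  have k3 := g1.pull g₂ hi.isProperMap
  refine ⟨_, g₂, e₂.trans (e₁.trans (cls_move hc gl (Move.wemb c _ _ _ rfl)).symm), ?_⟩
  exact i1.trans k3 k2 k0 (i1.ge k3 G₂) (i1.symm k0 (i1.trans k0 k1 k2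
    (i2.viso (c := C.pull fun x => (x, 1)) c.V e k0)
    (i2.wemb (c := (C.pull fun x => (x, 1)).viso c.V e) (c.W.prod C.W)
      (ContinuousLinearMap.inr ℂ c.W C.W) (ContinuousLinearMap.snd ℂ c.W C.W) rfl k1)))

/-- The class `x` has a representative that restricts to a stabilisation of `d`. -/
def Rel {N M : Type} [TopologicalSpace N] [TopologicalSpace M] (i : M → N) (x : h N) (d : Raw M) :
    Prop := ∃ (c : Raw N) (E : FD), c.Good ∧ cls c = x ∧ IG (c.pull i) (d.stab E)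

theorem rel_move (g1 : S_good1) (i1 : S_IG1) (i2 : S_IG2) (hI : S_IsoH) (hH : S_Hep0) {N M : Type}
    [TopologicalSpace N] [TopologicalSpace M] [T2Space N] [LocallyCompactSpace N] {i : M → N}
    (hi : IsClosedEmbedding i) (x : h N) (d d' : Raw M) (hd : d.Good) (hd' : d'.Good)
    (m : Move d d') : Rel i x d = Rel i x d' := by
  have ig : ∀ a b : Raw M, a.Good → b.Good → IG a b → Rel i x a → Rel i x b := by
    rintro a b ha hb hab ⟨c, E, h1, h2, h3⟩
    exact ⟨c, E, h1, h2, i1.trans (g1.pull h1 hi.isProperMap) (g1.stab E ha) (g1.stab E hb) h3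
      (i2.stab E hab)⟩
  have ig' : IG d d' → Rel i x d = Rel i x d' := fun h =>
    propext ⟨ig _ _ hd hd' h, ig _ _ hd' hd (i1.symm hd h)⟩
  have ht : ∀ C : Raw (M × unitInterval), C.Good → Rel i x (C.pull fun y => (y, 0)) →
      Rel i x (C.pull fun y => (y, 1)) := by
    rintro C hC ⟨c, E, h1, h2, h3⟩
    obtain ⟨c₁, a1, a2, a3⟩ := hep g1 i1 i2 hI hH hi h1 (g1.stab E hC) h3
    exact ⟨c₁, E, a1, a2.trans h2, a3⟩
  cases m with
  | germ _ O p s h1 h2 h3 h4 =>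
    exact ig' (i1.ge (V := d.V) (W := d.W) (O := d.O) (p := d.p) (s := d.s) hd
      ⟨O, hd'.op, h1, Subset.rfl, h2.symm, h3.symm, fun z hz h0 => h4 ⟨hz, h0⟩, fun _ h _ => h⟩)
  | htpy C hC =>
    refine propext ⟨ht C hC, fun h => ?_⟩
    have := ht (C.pull (Prod.map id unitInterval.symm)) (g1.pull hC
      ((Homeomorph.refl M).prodCongr unitInterval.symmHomeomorph).isProperMap)
    have e0 : (C.pull (Prod.map id unitInterval.symm)).pull (fun y : M => (y, 0)) =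
        C.pull fun y => (y, 1) :=
      congrArg (fun τ => C.pull fun y : M => (y, τ)) unitInterval.symm_zero
    have e1 : (C.pull (Prod.map id unitInterval.symm)).pull (fun y : M => (y, 1)) =
        C.pull fun y => (y, 0) :=
      congrArg (fun τ => C.pull fun y : M => (y, τ)) unitInterval.symm_one
    rw [e0, e1] at this
    exact this h
  | stab _ F =>
    refine propext ⟨?_, ?_⟩
    · rintro ⟨c, E, h1, h2, h3⟩
      have k1 := g1.stab F (g1.stab E hd)
      have k2 := g1.stab (F.prod E) hd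
      have k3 := g1.stab E hd'
      refine ⟨c.stab F, E, g1.stab F h1, (cls_move h1 (g1.stab F h1) (Move.stab c F)).symm.trans h2,
        i1.trans (g1.pull (g1.stab F h1) hi.isProperMap) k1 k3 (i2.stab F h3) ?_⟩
      exact i1.trans k1 k2 k3 (i2.stab2 E F (F.prod E) (ContinuousLinearEquiv.prodComm ℂ F E) hd)
        (i1.symm k3 (i2.stab2 F E (F.prod E) (ContinuousLinearEquiv.refl ℂ _) hd))
    · rintro ⟨c, E, h1, h2, h3⟩
      exact ⟨c, F.prod E, h1, h2, i1.trans (g1.pull h1 hi.isProperMap) (g1.stab E hd')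
        (g1.stab _ hd) h3 (i2.stab2 F E (F.prod E) (ContinuousLinearEquiv.refl ℂ _) hd)⟩
  | viso _ V' e => exact ig' (i2.viso V' e hd)
  | wemb _ W' j r hr => exact ig' (i2.wemb W' j r hr hd)

end XMV

open XMV in
theorem mv0_of (g1 : S_good1) (g2 : S_good2) (ev : S_eqv) (i1 : S_IG1) (i2 : S_IG2) (hI : S_IsoH)
    (hH : S_Hep0) : S_MV0 := by
  intro N M G T _ _ _ _ _ _ i j k l hi hj hk hl hc hs hm c y gc gy e
  have gi := g1.pull gc hi.isProperMap
  have gk := g2.push gy hk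
  have h0 : Rel i (cls c) (c.pull i) := ⟨c.stab FD.zero, FD.zero, g1.stab _ gc,
    (cls_move gc (g1.stab _ gc) (Move.stab c _)).symm, ig_refl i1 (g1.stab _ gi)⟩
  rw [cls_lift (Rel i (cls c)) (rel_move g1 i1 i2 hI hH hi (cls c)) gi gk e] at h0
  obtain ⟨d, E, h1, h2, h3⟩ := h0
  have gd := g1.pull h1 hi.isProperMap
  have zk : ∀ z ∈ (d.pull i).Z, z.1 ∈ range k := fun z hz => by
    obtain ⟨z', ⟨⟨w, -, hw⟩, -⟩, h⟩ := i1.zero gd h3 z hz
    exact ⟨w.1, (congrArg Prod.fst hw).trans h⟩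
  have zj : ∀ z ∈ d.Z, z.1 ∈ range j := fun z hz => by
    rcases (hc.symm ▸ mem_univ z.1 : z.1 ∈ range i ∪ range j) with ⟨m, h⟩ | h
    · obtain ⟨n, v⟩ := z
      obtain rfl : i m = n := h
      obtain ⟨t, ht⟩ := zk (m, v) hz
      exact ⟨l t, (hs t).symm.trans (congrArg i ht)⟩
    · exact h
  have gj := g1.pullO h1 hj.isEmbedding zj
  refine ⟨d.pull j, gj, (ig_eq ev h1 (g2.push gj hj) (i2.pp hj h1 zj)).symm.trans h2, ?_⟩
  have e1 : (d.pull j).pull l = (d.pull i).pull k := by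
    show d.pull (fun t => j (l t)) = d.pull fun t => i (k t)
    simp only [hs]
  have gkk : ((y.push k).pull k).Good :=
    g1.pullO gk hk.isEmbedding fun z ⟨⟨w, _, hw⟩, _⟩ => ⟨w.1, congrArg Prod.fst hw⟩
  rw [e1, ig_eq ev (g1.pullO gd hk.isEmbedding zk) (g1.stab E gkk) (i1.pull hk.continuous h3),
    ← cls_move gkk (g1.stab E gkk) (Move.stab _ E)]
  exact (ig_eq ev gy gkk (i2.push hk gy)).symm

end

end Pool.Agent.MP_826def_gt.BM
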