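import Pool.Agent.MP_826def_gt.BM.Spec
import Pool.Agent.MP_826def_gt.K82.Idem

/-!
A neighbourhood of the idempotents retracts onto them.
-/

namespace Pool.Agent.MP_826def_gt.BM

open Set Topology MU

theorem retr : S_Retr := by
  intro W
  refine ⟨{a | ‖a * a - a‖ < 1 / 8}, K82.retr, ?_, ?_, ?_, ?_⟩
  · exact isOpen_lt (by fun_prop) continuous_const
  · exact K82.continuousOn_retr.mono fun a (ha : ‖a * a - a‖ < 1 / 8) =>
      show ‖a * a - a‖ ≤ 1 / 8 from ha.le
  · exact fun a (ha : ‖a * a - a‖ < 1 / 8) => K82.retr_idem ha.le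
  · intro a ha
    have ha' : a * a = a := ha
    refine ⟨?_, K82.retr_of_idem ha'⟩
    show ‖a * a - a‖ < 1 / 8
    rw [ha', sub_self, norm_zero]
    norm_num

end Pool.Agent.MP_826def_gt.BM
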