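import Pool.Agent.MP_826def_gt.BM.Hep
import Pool.Agent.MP_826def_gt.BM.MV
import Pool.Agent.MP_826def_gt.BM.IG1
import Pool.Agent.MP_826def_gt.BM.IG2
import Pool.Agent.MP_826def_gt.BM.IsoH
import Pool.Agent.MP_826def_gt.BM.Retr

namespace Pool.Agent.MP_826def_gt.BM

open MU

/-- The Mayer-Vietoris property. -/
theorem mv0 (g1 : S_good1) (g2 : S_good2) (ev : S_eqv) : S_MV0 :=
  mv0_of g1 g2 ev ig1 ig2 isoH (hep0 g1 retr)

end Pool.Agent.MP_826def_gt.BM
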