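import Pool.Agent.MP_826def_gt.MU.Core

/-!
Statements of the steps in the proof of the Mayer-Vietoris property.
-/

namespace Pool.Agent.MP_826def_gt.BM

open Set Topology MU

noncomputable section

/-- Isomorphic germs (the hypotheses of `S_eqv`). -/
def IG {X : Type} [TopologicalSpace X] (c c' : Raw X) : Prop :=
  ∃ (e : c'.V ≃L[ℂ] c.V) (G : Set (X × c'.V)) (u : X × c'.V → c.W →L[ℂ] c'.W)
    (v : X × c'.V → c'.W →L[ℂ] c.W), IsOpen G ∧ c'.Z ⊆ G ∧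
    (∀ z : X × c'.V, (z.1, e z.2) ∈ c.Z → z ∈ G) ∧ ContinuousOn u G ∧ ContinuousOn v G ∧
    ∀ z ∈ G, z ∈ c'.O ∧ (z.1, e z.2) ∈ c.O ∧ v z ∘L u z = c.p (z.1, e z.2) ∧
      u z ∘L v z = c'.p z ∧ u z (c.s (z.1, e z.2)) = c'.s z

/-- Equal germs. -/
def GE {Y : Type} [TopologicalSpace Y] {W : FD} (O : Set Y) (p : Y → W →L[ℂ] W) (s : Y → W)
    (O' : Set Y) (p' : Y → W →L[ℂ] W) (s' : Y → W) : Prop :=
  ∃ G : Set Y, IsOpen G ∧ G ⊆ O ∧ G ⊆ O' ∧ EqOn p p' G ∧ EqOn s s' G ∧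
    (∀ z ∈ O, s z = 0 → z ∈ G) ∧ ∀ z ∈ O', s' z = 0 → z ∈ G

/-- A neighbourhood of the idempotents retracts onto them. -/
def S_Retr : Prop :=
  ∀ W : FD, ∃ (D : Set (W →L[ℂ] W)) (R : (W →L[ℂ] W) → W →L[ℂ] W), IsOpen D ∧ ContinuousOn R D ∧
    (∀ a ∈ D, R a ∘L R a = R a) ∧ ∀ a, a ∘L a = a → a ∈ D ∧ R a = a

/-- Isomorphic germs are joined by a homotopy inside the sum of the two ambient spaces. -/
def S_IsoH : Prop :=
  ∀ {X : Type} [TopologicalSpace X] (V W W' : FD) (O O' G : Set (X × V))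
    (p : X × V → W →L[ℂ] W) (p' : X × V → W' →L[ℂ] W') (s : X × V → W) (s' : X × V → W')
    (u : X × V → W →L[ℂ] W') (v : X × V → W' →L[ℂ] W),
    Raw.Good ⟨V, W, O, p, s⟩ → Raw.Good ⟨V, W', O', p', s'⟩ → IsOpen G →
    (∀ z ∈ O, s z = 0 → z ∈ G) →
    (∀ z ∈ O', s' z = 0 → z ∈ G) → ContinuousOn u G → ContinuousOn v G →
    (∀ z ∈ G, z ∈ O' ∧ z ∈ O ∧ v z ∘L u z = p z ∧ u z ∘L v z = p' z ∧ u z (s z) = s' z) →
    ∃ (Q : Set ((X × unitInterval) × V))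
      (q : (X × unitInterval) × V → W.prod W' →L[ℂ] W.prod W')
      (t : (X × unitInterval) × V → W.prod W'), Raw.Good ⟨V, W.prod W', Q, q, t⟩ ∧
      GE (W := W.prod W') O
        (fun z => ContinuousLinearMap.inl ℂ W W' ∘L p z ∘L ContinuousLinearMap.fst ℂ W W')
        (fun z => ContinuousLinearMap.inl ℂ W W' (s z))
        {z : X × V | ((z.1, 0), z.2) ∈ Q} (fun z => q ((z.1, 0), z.2))
        (fun z => t ((z.1, 0), z.2)) ∧
      GE (W := W.prod W') {z : X × V | ((z.1, 1), z.2) ∈ Q} (fun z => q ((z.1, 1), z.2))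
        (fun z => t ((z.1, 1), z.2)) O'
        (fun z => ContinuousLinearMap.inr ℂ W W' ∘L p' z ∘L ContinuousLinearMap.snd ℂ W W')
        (fun z => ContinuousLinearMap.inr ℂ W W' (s' z))

/-- Calculus of isomorphic germs, first part. -/
structure S_IG1 : Prop where
  symm : ∀ {X : Type} [TopologicalSpace X] {c c' : Raw X}, c.Good → IG c c' → IG c' c
  trans : ∀ {X : Type} [TopologicalSpace X] {c c' c'' : Raw X}, c.Good → c'.Good → c''.Good →
    IG c c' → IG c' c'' → IG c c''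
  pull : ∀ {X X' : Type} [TopologicalSpace X] [TopologicalSpace X'] {c c' : Raw X} {f : X' → X},
    Continuous f → IG c c' → IG (c.pull f) (c'.pull f)
  zero : ∀ {X : Type} [TopologicalSpace X] {c c' : Raw X}, c.Good → IG c c' →
    ∀ z ∈ c.Z, ∃ z' ∈ c'.Z, z'.1 = z.1
  ge : ∀ {X : Type} [TopologicalSpace X] {V W : FD} {O O' : Set (X × V)}
    {p p' : X × V → W →L[ℂ] W} {s s' : X × V → W}, Raw.Good ⟨V, W, O, p, s⟩ →
    GE O p s O' p' s' → IG ⟨V, W, O, p, s⟩ ⟨V, W, O', p', s'⟩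

/-- Calculus of isomorphic germs, second part. -/
structure S_IG2 : Prop where
  stab : ∀ {X : Type} [TopologicalSpace X] {c c' : Raw X} (E : FD), IG c c' →
    IG (c.stab E) (c'.stab E)
  stab2 : ∀ {X : Type} [TopologicalSpace X] {c : Raw X} (E F K : FD) (_ : K ≃L[ℂ] E × F), c.Good →
    IG ((c.stab E).stab F) (c.stab K)
  viso : ∀ {X : Type} [TopologicalSpace X] {c : Raw X} (V' : FD) (e : V' ≃L[ℂ] c.V), c.Good →
    IG c (c.viso V' e)
  wemb : ∀ {X : Type} [TopologicalSpace X] {c : Raw X} (W' : FD) (j : c.W →L[ℂ] W')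
    (r : W' →L[ℂ] c.W), r ∘L j = ContinuousLinearMap.id ℂ c.W → c.Good → IG c (c.wemb W' j r)
  push : ∀ {X U : Type} [TopologicalSpace X] [TopologicalSpace U] {c : Raw U} {j : U → X},
    IsOpenEmbedding j → c.Good → IG c ((c.push j).pull j)
  pp : ∀ {X U : Type} [TopologicalSpace X] [TopologicalSpace U] {c : Raw X} {j : U → X},
    IsOpenEmbedding j → c.Good → (∀ z ∈ c.Z, z.1 ∈ range j) → IG c ((c.pull j).push j)

/-- Homotopy extension for cocycles with equal germs. -/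
def S_Hep0 : Prop :=
  ∀ {N M : Type} [TopologicalSpace N] [TopologicalSpace M] [T2Space N] [LocallyCompactSpace N]
    (i : M → N) (V W : FD) (O : Set (N × V)) (p : N × V → W →L[ℂ] W) (s : N × V → W)
    (Q : Set ((M × unitInterval) × V)) (q : (M × unitInterval) × V → W →L[ℂ] W)
    (t : (M × unitInterval) × V → W), IsClosedEmbedding i → Raw.Good ⟨V, W, O, p, s⟩ →
    Raw.Good ⟨V, W, Q, q, t⟩ →
    GE {z : M × V | (i z.1, z.2) ∈ O} (fun z => p (i z.1, z.2)) (fun z => s (i z.1, z.2))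
      {z : M × V | ((z.1, 0), z.2) ∈ Q} (fun z => q ((z.1, 0), z.2)) (fun z => t ((z.1, 0), z.2)) →
    ∃ (O₁ : Set (N × V)) (p₁ : N × V → W →L[ℂ] W) (s₁ : N × V → W), Raw.Good ⟨V, W, O₁, p₁, s₁⟩ ∧
      cls ⟨V, W, O₁, p₁, s₁⟩ = cls (⟨V, W, O, p, s⟩ : Raw N) ∧
      GE {z : M × V | (i z.1, z.2) ∈ O₁} (fun z => p₁ (i z.1, z.2)) (fun z => s₁ (i z.1, z.2))
        {z : M × V | ((z.1, 1), z.2) ∈ Q} (fun z => q ((z.1, 1), z.2)) (fun z => t ((z.1, 1), z.2))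

end

end Pool.Agent.MP_826def_gt.BM
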